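import Pool.Agent.helper56.P3.Util
import Pool.Agent.helper39.P3.WBasic
import Pool.Agent.helper96.P3.Return

/-!
# P3, module H1 (Dyadic): statuses
-/

namespace Pool.Agent.helper56.P3

open Finset Pool.Agent.helper56.Per

section H1aux

variable {K : Type*} [Field K] {b c : K} {n q0 : ℕ} {lam : K} {W : ℕ → K}
variable {Γ : Type*} [LinearOrderedCommGroupWithZero Γ] {v : Valuation K Γ}

theorem H1_pow_le (hb : v b = 1) (j k : ℕ) : v (b ^ (j * k) - 1) ≤ v (b ^ j - 1) := by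
  induction k with
  | zero => rw [mul_zero, pow_zero, sub_self, map_zero]; exact zero_le
  | succ k ih =>
    have e : b ^ (j * (k + 1)) - 1 = b ^ j * (b ^ (j * k) - 1) + (b ^ j - 1) := by ring
    rw [e]
    refine v.map_add_le ?_ le_rfl
    rw [map_mul, map_pow, hb, one_pow, one_mul]
    exact ih

theorem H1_TT_le (hb : v b = 1) (hc0 : c ≠ 0) {j j' : ℕ}
    (h : v (b ^ j' - 1) ≤ v (b ^ j - 1)) : v (TT b c j') ≤ v (TT b c j) := by
  have hc : 0 < v c := zero_lt_iff.2 ((v.ne_zero_iff).2 hc0)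
  rw [← v_TT hb hc0 j, ← v_TT hb hc0 j'] at h
  exact le_of_mul_le_mul_right h hc

theorem H1_TT_lt (hb : v b = 1) (hc0 : c ≠ 0) {j j' : ℕ}
    (h : v (b ^ j' - 1) < v (b ^ j - 1)) : v (TT b c j') < v (TT b c j) := by
  rw [← v_TT hb hc0 j, ← v_TT hb hc0 j'] at h
  exact lt_of_mul_lt_mul_right h zero_le

theorem DCtx.small (D : DCtx v b c q0) (k : ℕ) : v (b ^ (q0 * k) - 1) < 1 :=
  (H1_pow_le D.vb q0 k).trans_lt D.lt

theorem DCtx.b0 (D : DCtx v b c q0) : b ≠ 0 := ne_zero_of_v_one D.vb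

theorem DCtx.vcpos (D : DCtx v b c q0) : 0 < v c := zero_lt_iff.2 ((v.ne_zero_iff).2 D.c0)

end H1aux

section H1

variable {K : Type*} [Field K] {b c : K} {n q0 : ℕ} {lam : K} {W : ℕ → K}
variable {Γ : Type*} [LinearOrderedCommGroupWithZero Γ] (v : Valuation K Γ)

theorem DCtx.ctx (D : DCtx v b c q0) {l : ℕ} (hT : 1 < v (TT b c (q0 * 2 ^ l))) :
    Ctx v b c := by
  refine ⟨D.vb, D.vc, D.c0, ?_⟩
  have h1 : v c < v (b ^ (q0 * 2 ^ l) - 1) := by
    rw [← v_TT D.vb D.c0]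
    calc v c = 1 * v c := (one_mul _).symm
      _ < v (TT b c (q0 * 2 ^ l)) * v c := mul_lt_mul_of_pos_right hT D.vcpos
  have h2 := H1_pow_le D.vb 1 (q0 * 2 ^ l)
  rw [one_mul, pow_one] at h2
  exact h1.trans_le h2

theorem DCtx.TT_not (D : DCtx v b c q0) {j : ℕ} (hj : ¬ q0 ∣ j) : v (TT b c j) * v c = 1 := by
  rw [v_TT D.vb D.c0, D.one j hj]

theorem DCtx.TT_succ (D : DCtx v b c q0) {l : ℕ} (hT : TT b c (q0 * 2 ^ l) ≠ 0) :
    v (TT b c (q0 * 2 ^ (l + 1))) < v (TT b c (q0 * 2 ^ l)) := by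
  refine H1_TT_lt D.vb D.c0 ?_
  have e : b ^ (q0 * 2 ^ (l + 1)) - 1
      = ((b ^ (q0 * 2 ^ l) - 1) + 2) * (b ^ (q0 * 2 ^ l) - 1) := by
    rw [pow_succ, ← mul_assoc, pow_mul]
    ring
  have h1 : v ((b ^ (q0 * 2 ^ l) - 1) + 2) < 1 := v.map_add_lt (D.small _) D.v2
  have h2 : 0 < v (b ^ (q0 * 2 ^ l) - 1) := by
    rw [← v_TT D.vb D.c0]
    exact mul_pos (zero_lt_iff.2 ((v.ne_zero_iff).2 hT)) D.vcpos
  rw [e, map_mul]
  calc v (b ^ (q0 * 2 ^ l) - 1 + 2) * v (b ^ (q0 * 2 ^ l) - 1)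
      < 1 * v (b ^ (q0 * 2 ^ l) - 1) := mul_lt_mul_of_pos_right h1 h2
    _ = _ := one_mul _

/-- the levels are strictly decreasing -/
theorem DCtx.TT_lt (D : DCtx v b c q0) {l l' : ℕ} (hl : l < l')
    (hT : TT b c (q0 * 2 ^ l) ≠ 0) :
    v (TT b c (q0 * 2 ^ l')) < v (TT b c (q0 * 2 ^ l)) := by
  have h1 := D.TT_succ v hT
  refine lt_of_le_of_lt ?_ h1
  refine H1_TT_le D.vb D.c0 ?_
  obtain ⟨k, rfl⟩ := Nat.exists_eq_add_of_le hl
  have e : q0 * 2 ^ (l.succ + k) = (q0 * 2 ^ (l + 1)) * 2 ^ k := by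
    rw [Nat.succ_eq_add_one, pow_add, mul_assoc]
  rw [e]
  exact H1_pow_le D.vb _ _

theorem DCtx.y_lt (D : DCtx v b c q0) (k : ℕ) : v (b⁻¹ ^ (q0 * k) - 1) < 1 := by
  have e : b⁻¹ ^ (q0 * k) - 1 = -(b⁻¹ ^ (q0 * k) * (b ^ (q0 * k) - 1)) := by
    rw [mul_sub, mul_one, ← mul_pow, inv_mul_cancel₀ D.b0, one_pow]
    ring
  rw [e, Valuation.map_neg, map_mul, map_pow, map_inv₀, D.vb, inv_one, one_pow, one_mul]
  exact D.small k

theorem H1_geom {v : Valuation K Γ} {y : K} (hy : v (y - 1) < 1) (u : ℕ) :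
    v (∑ i ∈ range u, y ^ i - u) < 1 := by
  have hy1 : v y ≤ 1 := by
    have e : y = (y - 1) + 1 := by ring
    rw [e]
    exact v.map_add_le hy.le (by rw [map_one])
  have hp : ∀ i : ℕ, v (y ^ i - 1) < 1 := by
    intro i
    induction i with
    | zero => rw [pow_zero, sub_self, map_zero]; exact zero_lt_one
    | succ i ih =>
      have e : y ^ (i + 1) - 1 = y * (y ^ i - 1) + (y - 1) := by ring
      rw [e]
      refine v.map_add_lt ?_ hy
      rw [map_mul]
      exact mul_lt_one_of_nonneg_of_lt_one_right hy1 zero_le ih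
  induction u with
  | zero => simp
  | succ u ih =>
    have e : ∑ i ∈ range (u + 1), y ^ i - ((u + 1 : ℕ) : K)
        = (∑ i ∈ range u, y ^ i - (u : K)) + (y ^ u - 1) := by
      rw [sum_range_succ]; push_cast; ring
    rw [e]
    exact v.map_add_lt ih (hp u)

theorem DCtx.v_odd (D : DCtx v b c q0) {u : ℕ} (hu : Odd u) : v ((u : K) - 1) < 1 := by
  obtain ⟨w, rfl⟩ := hu
  have e : (((2 * w + 1 : ℕ) : K)) - 1 = 2 * (w : K) := by push_cast; ring
  rw [e, map_mul]
  have hw : v (w : K) ≤ 1 := by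
    induction w with
    | zero => simp
    | succ w ih =>
      push_cast
      refine v.map_add_le (ih ?_) (by rw [map_one])
      push_cast; ring
  exact mul_lt_one_of_lt_of_le D.v2 hw

theorem DCtx.TT_odd (D : DCtx v b c q0) {l u : ℕ} (hu : Odd u) (hT : TT b c (q0 * 2 ^ l) ≠ 0) :
    v (TT b c (q0 * 2 ^ l * u) / TT b c (q0 * 2 ^ l) - 1) < 1 := by
  set y := b⁻¹ ^ (q0 * 2 ^ l) with hy
  have h1 : v (y - 1) < 1 := D.y_lt v _
  have hne : 1 - y ≠ 0 := by
    intro h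
    apply hT
    unfold TT
    rw [← hy, h, zero_div]
  have e : TT b c (q0 * 2 ^ l * u) / TT b c (q0 * 2 ^ l) - 1
      = (∑ i ∈ range u, y ^ i - u) + ((u : K) - 1) := by
    have hg : (∑ i ∈ range u, y ^ i) * (1 - y) = 1 - y ^ u := by
      have := geom_sum_mul y u
      linear_combination -this
    have h2 : TT b c (q0 * 2 ^ l * u) / TT b c (q0 * 2 ^ l) = ∑ i ∈ range u, y ^ i := by
      unfold TT
      rw [pow_mul, ← hy, div_div_div_cancel_right₀ D.c0, ← hg, mul_div_cancel_right₀ _ hne]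
    rw [h2]; ring
  rw [e]
  exact v.map_add_lt (H1_geom h1 u) (D.v_odd v hu)

/-- sizes: `|TT s|` for arbitrary `s > 0` -/
theorem DCtx.cases (D : DCtx v b c q0) {s : ℕ} (hs : 0 < s) (h0 : TT b c s ≠ 0) :
    ¬ q0 ∣ s ∨ ∃ l u, Odd u ∧ s = q0 * 2 ^ l * u ∧ TT b c (q0 * 2 ^ l) ≠ 0 ∧
      v (TT b c s) = v (TT b c (q0 * 2 ^ l)) := by
  by_cases hq : q0 ∣ s
  · right
    obtain ⟨s', rfl⟩ := hq
    have hs' : s' ≠ 0 := by rintro rfl; simp at hs
    obtain ⟨l, u, hu, rfl⟩ := Nat.exists_eq_two_pow_mul_odd hs'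
    have hT : TT b c (q0 * 2 ^ l) ≠ 0 := by
      intro h
      apply h0
      have h1 := v_TT D.vb D.c0 (q0 * 2 ^ l)
      rw [h, map_zero, zero_mul] at h1
      have h2 : b ^ (q0 * 2 ^ l) - 1 = 0 := (v.zero_iff).1 h1.symm
      have h3 := H1_pow_le (v := v) D.vb (q0 * 2 ^ l) u
      rw [h2, map_zero, mul_assoc] at h3
      have h4 : v (b ^ (q0 * (2 ^ l * u)) - 1) = 0 := le_antisymm h3 zero_le
      rw [← v_TT D.vb D.c0] at h4
      rcases mul_eq_zero.1 h4 with h5 | h5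
      · exact (v.zero_iff).1 h5
      · exact absurd h5 D.vcpos.ne'
    refine ⟨l, u, hu, by rw [mul_assoc], hT, ?_⟩
    have h1 := D.TT_odd v hu hT
    have h2 : v (TT b c (q0 * 2 ^ l * u) / TT b c (q0 * 2 ^ l)) = 1 :=
      v_eq_one_of_sub h1 (map_one v)
    rw [map_div₀] at h2
    rw [← mul_assoc]
    exact (div_eq_one_iff_eq ((v.ne_zero_iff).2 hT)).1 h2
  · exact Or.inl hq

theorem DCtx.TT_c_lt (D : DCtx v b c q0) (l : ℕ) : v (TT b c (q0 * 2 ^ l)) * v c < 1 := by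
  rw [v_TT D.vb D.c0]
  exact D.small _

/-- if `|TT s| = |TT (q0 2^L)| > 1` then `b^s Us TT s / TT (q0 2^L)` is `1` modulo `m` -/
theorem DCtx.core (D : DCtx v b c q0) {L s : ℕ} (hT : 1 < v (TT b c (q0 * 2 ^ L))) (hs : 0 < s)
    (h : v (TT b c s) = v (TT b c (q0 * 2 ^ L))) :
    v (b ^ s * (Us b c * TT b c s) / TT b c (q0 * 2 ^ L) - 1) < 1 := by
  have hc := D.ctx v hT
  have hTL : TT b c (q0 * 2 ^ L) ≠ 0 := by
    intro h0; rw [h0, map_zero] at hT; exact absurd hT (not_lt.2 zero_le)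
  have hs0 : TT b c s ≠ 0 := by
    intro h0; rw [← h, h0, map_zero] at hT; exact absurd hT (not_lt.2 zero_le)
  rcases D.cases v hs hs0 with hq | ⟨l, u, hu, rfl, hl0, hl⟩
  · exfalso
    have h1 := D.TT_not v hq
    rw [h] at h1
    exact absurd h1 (D.TT_c_lt v L).ne
  · have hlL : l = L := by
      rcases lt_trichotomy l L with h1 | h1 | h1
      · have := D.TT_lt v h1 hl0
        rw [← h, hl] at this
        exact absurd this (lt_irrefl _)
      · exact h1
      · have := D.TT_lt v h1 hTL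
        rw [← h, hl] at this
        exact absurd this (lt_irrefl _)
    subst hlL
    have h1 := D.TT_odd v hu hTL
    have h2 : v (b ^ (q0 * 2 ^ l * u) - 1) < 1 := by
      rw [mul_assoc]; exact D.small _
    have h3 : v (Us b c - 1) < 1 := (hc.us v).trans D.vc
    set ρ := TT b c (q0 * 2 ^ l * u) / TT b c (q0 * 2 ^ l) with hρ
    have hρ1 : v ρ = 1 := v_eq_one_of_sub h1 (map_one v)
    have hU1 : v (Us b c) = 1 := v_eq_one_of_sub h3 (map_one v)
    have e : b ^ (q0 * 2 ^ l * u) * (Us b c * TT b c (q0 * 2 ^ l * u)) / TT b c (q0 * 2 ^ l) - 1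
        = (b ^ (q0 * 2 ^ l * u) - 1) * (Us b c * ρ) + ((Us b c - 1) * ρ + (ρ - 1)) := by
      rw [hρ]; field_simp; ring
    rw [e]
    refine v.map_add_lt ?_ (v.map_add_lt ?_ h1)
    · rw [map_mul, map_mul, hU1, hρ1, one_mul, mul_one]; exact h2
    · rw [map_mul, hρ1, mul_one]; exact h3

/-- a hole with gap `s` -/
theorem H1_hole {v : Valuation K Γ} (h : WCyc b c n lam W) (hc : Ctx v b c) {i : ℕ}
    (hi : v (W i) < 1) : ∃ s, IsGap v W i s ∧ v (TT b c s) = (v (W i))⁻¹ ∧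
      v ((W i)⁻¹ + b ^ s * (Us b c * TT b c s)) ≤ 1 := by
  obtain ⟨s, hs, -⟩ := h.exists_gap v hi.le i
  refine ⟨s, hs, ?_⟩
  have h1 := h.gap_eq v hc hs
  have h2 : v ((W i)⁻¹ + b ^ s * (Us b c * TT b c s)) ≤ 1 := by
    have e : (W i)⁻¹ + b ^ s * (Us b c * TT b c s)
        = (W i + (W i)⁻¹ + b ^ s * (Us b c * TT b c s)) - W i := by ring
    rw [e]
    exact v.map_sub_le h1 hi.le
  refine ⟨?_, h2⟩
  have hU1 : v (Us b c) = 1 := v_eq_one_of_sub ((hc.us v).trans hc.vc) (map_one v)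
  have h3 : v (b ^ s * (Us b c * TT b c s)) = v (TT b c s) := by
    rw [map_mul, map_mul, map_pow, hc.vb, hU1, one_pow, one_mul, one_mul]
  have h4 : 1 < v (W i)⁻¹ := v_inv_gt_one (h.ne0 i) hi
  rw [← h3, ← map_inv₀]
  have e : b ^ s * (Us b c * TT b c s) = -(W i)⁻¹ + ((W i)⁻¹ + b ^ s * (Us b c * TT b c s)) := by
    ring
  rw [e, Valuation.map_add_eq_of_lt_left v, Valuation.map_neg]
  rw [Valuation.map_neg]
  exact h2.trans_lt h4

theorem D_status (D : DCtx v b c q0) (h : WCyc b c n lam W) {L : ℕ}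
    (hT : 1 < v (TT b c (q0 * 2 ^ L))) (i : ℕ) :
    v (W i * TT b c (q0 * 2 ^ L)) < 1 ∨ v (W i * TT b c (q0 * 2 ^ L) - 1) < 1 ∨
      1 < v (W i * TT b c (q0 * 2 ^ L)) := by
  have hc := D.ctx v hT
  rcases lt_trichotomy (v (W i * TT b c (q0 * 2 ^ L))) 1 with h1 | h1 | h1
  · exact Or.inl h1
  · refine Or.inr (Or.inl ?_)
    set T := TT b c (q0 * 2 ^ L) with hTdef
    have hT0 : T ≠ 0 := by
      intro h0; rw [h0, map_zero] at hT; exact absurd hT (not_lt.2 zero_le)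
    have hWT : v (W i) = (v T)⁻¹ := by
      rw [map_mul] at h1
      exact eq_inv_of_mul_eq_one_left h1
    have hW1 : v (W i) < 1 := by
      rw [hWT]; exact inv_lt_one_of_one_lt₀ hT
    obtain ⟨s, hs, hs1, hs2⟩ := H1_hole h hc hW1
    rw [hWT, inv_inv] at hs1
    have h2 := D.core v hT hs.1 hs1
    -- multiply by W i
    have h3 : v (1 + b ^ s * (Us b c * TT b c s) / T * (W i * T)) < 1 := by
      have e : 1 + b ^ s * (Us b c * TT b c s) / T * (W i * T)
          = W i * ((W i)⁻¹ + b ^ s * (Us b c * TT b c s)) := by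
        have := h.ne0 i
        field_simp
      rw [e, map_mul]
      exact mul_lt_one_of_lt_of_le hW1 hs2
    have e : W i * T - 1 = (1 + b ^ s * (Us b c * TT b c s) / T * (W i * T))
        - (b ^ s * (Us b c * TT b c s) / T - 1) * (W i * T) - 2 := by ring
    rw [e]
    refine v.map_sub_lt (v.map_sub_lt h3 ?_) D.v2
    rw [map_mul, h1, mul_one]
    exact h2
  · exact Or.inr (Or.inr h1)

theorem D_status' (D : DCtx v b c q0) (h : WCyc b c n lam W) {L : ℕ}
    (hT : 1 < v (TT b c (q0 * 2 ^ L))) (h0 : ∃ i0, v (W i0) ≤ 1) (i : ℕ) :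
    v (W i / TT b c (q0 * 2 ^ L)) < 1 ∨ v (W i / TT b c (q0 * 2 ^ L) - 1) < 1 ∨
      1 < v (W i / TT b c (q0 * 2 ^ L)) := by
  have hc := D.ctx v hT
  obtain ⟨i0, hi0⟩ := h0
  rcases lt_trichotomy (v (W i / TT b c (q0 * 2 ^ L))) 1 with h1 | h1 | h1
  · exact Or.inl h1
  · refine Or.inr (Or.inl ?_)
    set T := TT b c (q0 * 2 ^ L) with hTdef
    have hT0 : T ≠ 0 := by
      intro h0; rw [h0, map_zero] at hT; exact absurd hT (not_lt.2 zero_le)
    have hvT0 : v T ≠ 0 := (v.ne_zero_iff).2 hT0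
    have hWT : v (W i) = v T := by
      rw [map_div₀] at h1
      exact (div_eq_one_iff_eq hvT0).1 h1
    have hW1 : 1 < v (W i) := by rw [hWT]; exact hT
    obtain ⟨s, hs, -⟩ := h.exists_gap v hi0 i
    have h2 := h.gap_eq v hc hs
    have h3 : v (W i + b ^ s * (Us b c * TT b c s)) ≤ 1 := by
      have e : W i + b ^ s * (Us b c * TT b c s)
          = (W i + (W i)⁻¹ + b ^ s * (Us b c * TT b c s)) - (W i)⁻¹ := by ring
      rw [e]
      exact v.map_sub_le h2 (v_inv_lt_one hW1).le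
    have hU1 : v (Us b c) = 1 := v_eq_one_of_sub ((hc.us v).trans hc.vc) (map_one v)
    have h4 : v (b ^ s * (Us b c * TT b c s)) = v (TT b c s) := by
      rw [map_mul, map_mul, map_pow, hc.vb, hU1, one_pow, one_mul, one_mul]
    have h5 : v (TT b c s) = v T := by
      rw [← h4, ← hWT]
      have e : b ^ s * (Us b c * TT b c s) = -(W i) + (W i + b ^ s * (Us b c * TT b c s)) := by
        ring
      rw [e, Valuation.map_add_eq_of_lt_left v, Valuation.map_neg]
      rw [Valuation.map_neg]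
      exact h3.trans_lt hW1
    have h6 := D.core v hT hs.1 h5
    have e : W i / T - 1 = (W i + b ^ s * (Us b c * TT b c s)) / T
        - (b ^ s * (Us b c * TT b c s) / T - 1) - 2 := by ring
    rw [e]
    refine v.map_sub_lt (v.map_sub_lt ?_ h6) D.v2
    rw [map_div₀]
    exact (div_lt_one₀ (zero_lt_iff.2 hvT0)).2 (h3.trans_lt hT)
  · exact Or.inr (Or.inr h1)

theorem D_base1 (D : DCtx v b c 1) (h : WCyc b c n lam W) (hl : 1 < v lam) :
    1 < v (TT b c 1) := by
  by_contra hcon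
  rw [not_lt] at hcon
  have h1 : v (b - 1) ≤ v c := by
    have := v_TT (v := v) D.vb D.c0 1
    rw [pow_one] at this
    rw [← this]
    exact mul_le_of_le_one_left zero_le hcon
  have hk : v ((b - 1 - c ^ 2) / c) ≤ 1 := by
    rw [map_div₀]
    refine (div_le_one₀ D.vcpos).2 ?_
    refine v.map_sub_le h1 ?_
    rw [map_pow, pow_two]
    exact mul_le_of_le_one_left zero_le D.vc.le
  -- no small points
  have hge : ∀ i, 1 ≤ v (W i) := by
    intro i
    by_contra hi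
    rw [not_le] at hi
    have key : ∀ l, v (W (i + (l + 1))) = (v (W i))⁻¹ := by
      have hinv : 1 < (v (W i))⁻¹ := by
        rw [← map_inv₀]; exact v_inv_gt_one (h.ne0 i) hi
      intro l
      induction l with
      | zero =>
        rw [zero_add, h.step' i, map_div₀, D.vb, div_one]
        have e : W i + (W i)⁻¹ + (b - 1 - c ^ 2) / c
            = (W i)⁻¹ + (W i + (b - 1 - c ^ 2) / c) := by ring
        rw [e, Valuation.map_add_eq_of_lt_left v, map_inv₀]
        rw [map_inv₀]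
        exact (v.map_add_le hi.le hk).trans_lt hinv
      | succ l ih =>
        have hbig : 1 < v (W (i + (l + 1))) := by rw [ih]; exact hinv
        rw [← add_assoc i (l + 1) 1, h.step' (i + (l + 1)), map_div₀, D.vb, div_one]
        have e : W (i + (l + 1)) + (W (i + (l + 1)))⁻¹ + (b - 1 - c ^ 2) / c
            = W (i + (l + 1)) + ((W (i + (l + 1)))⁻¹ + (b - 1 - c ^ 2) / c) := by ring
        rw [e, Valuation.map_add_eq_of_lt_left v, ih]
        exact (v.map_add_le (v_inv_lt_one hbig).le hk).trans_lt hbig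
    obtain ⟨m, hm⟩ := Nat.exists_eq_succ_of_ne_zero h.npos.ne'
    have h2 := key m
    have h3 : W (i + (m + 1)) = W i := by
      have := h.per i
      rw [hm] at this
      exact this
    rw [h3] at h2
    have hinv : 1 < (v (W i))⁻¹ := by
      rw [← map_inv₀]; exact v_inv_gt_one (h.ne0 i) hi
    rw [← h2] at hinv
    exact absurd hinv (not_lt.2 hi.le)
  exact absurd (h.lam_le v D.vb hge) (not_le.2 hl)

theorem D_base_res (D : DCtx v b c q0) (hq : 1 < q0) (h : WCyc b c n lam W) (i : ℕ) :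
    ∃ s < q0, v (c / W i - (1 - b ^ s)) < 1 := by
  have hnd : ¬ q0 ∣ 1 := by
    intro hd; have := Nat.le_of_dvd one_pos hd; omega
  have hb1 := D.one 1 hnd
  rw [pow_one] at hb1
  have hc : Ctx v b c := ⟨D.vb, D.vc, D.c0, by rw [hb1]; exact D.vc⟩
  rcases le_or_gt (v (W i)) 1 with hi | hi
  · obtain ⟨s, hs, -⟩ := h.exists_gap v hi i
    have h1 := h.gap_eq v hc hs
    refine ⟨s % q0, Nat.mod_lt _ (by omega), ?_⟩
    have h3 : v (Us b c - 1) < 1 := (hc.us v).trans D.vc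
    have hbs : v (b ^ (q0 * (s / q0)) - 1) < 1 := D.small _
    have hsm : b ^ s = b ^ (s % q0) * b ^ (q0 * (s / q0)) := by
      rw [← pow_add]; congr 1; exact (Nat.mod_add_div s q0).symm
    have hbb : b ^ s * b⁻¹ ^ s = 1 := by
      rw [← mul_pow, mul_inv_cancel₀ D.b0, one_pow]
    have hcT : c * TT b c s = 1 - b⁻¹ ^ s := by
      unfold TT; rw [mul_div_cancel₀ _ D.c0]
    have e : c / W i - (1 - b ^ (s % q0))
        = c * (W i + (W i)⁻¹ + b ^ s * (Us b c * TT b c s)) - c * W i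
          - (Us b c - 1) * (b ^ s - 1) - b ^ (s % q0) * (b ^ (q0 * (s / q0)) - 1) := by
      have e1 : c * (b ^ s * (Us b c * TT b c s)) = Us b c * (b ^ s - 1) := by
        calc c * (b ^ s * (Us b c * TT b c s)) = Us b c * (b ^ s * (c * TT b c s)) := by ring
          _ = Us b c * (b ^ s - b ^ s * b⁻¹ ^ s) := by rw [hcT]; ring
          _ = _ := by rw [hbb]
      have e2 : c * (W i + (W i)⁻¹ + b ^ s * (Us b c * TT b c s))
          = c * W i + c / W i + Us b c * (b ^ s - 1) := by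
        rw [mul_add, e1]; ring
      rw [e2]
      have e3 : b ^ (s % q0) * (b ^ (q0 * (s / q0)) - 1) = b ^ s - b ^ (s % q0) := by
        rw [hsm]; ring
      rw [e3]; ring
    rw [e]
    refine v.map_sub_lt (v.map_sub_lt (v.map_sub_lt ?_ ?_) ?_) ?_
    · rw [map_mul]; exact mul_lt_one_of_lt_of_le D.vc h1
    · rw [map_mul]; exact mul_lt_one_of_lt_of_le D.vc hi
    · rw [map_mul]
      refine mul_lt_one_of_lt_of_le h3 (v.map_sub_le ?_ (by rw [map_one]))
      rw [map_pow, D.vb, one_pow]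
    · rw [map_mul, map_pow, D.vb, one_pow, one_mul]; exact hbs
  · refine ⟨0, by omega, ?_⟩
    rw [pow_zero, sub_self, sub_zero, div_eq_mul_inv, map_mul]
    exact mul_lt_one_of_lt_of_le D.vc (v_inv_lt_one hi).le

theorem D_base2 (D : DCtx v b c q0) (hq : 1 < q0) (h : WCyc b c n lam W) (hl : 1 < v lam)
    (hW : ∀ i, v c < v (W i)) : 1 < v (TT b c q0) := by
  by_contra hcon
  rw [not_lt] at hcon
  have hnd : ¬ q0 ∣ 1 := by
    intro hd; have := Nat.le_of_dvd one_pos hd; omega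
  have hb1 := D.one 1 hnd
  rw [pow_one] at hb1
  have hc : Ctx v b c := ⟨D.vb, D.vc, D.c0, by rw [hb1]; exact D.vc⟩
  have hge : ∀ i, 1 ≤ v (W i) := by
    intro i
    by_contra hi
    rw [not_le] at hi
    obtain ⟨s, hs, hs1, -⟩ := H1_hole h hc hi
    have hgt : 1 < v (TT b c s) := by
      rw [hs1, ← map_inv₀]; exact v_inv_gt_one (h.ne0 i) hi
    by_cases hd : q0 ∣ s
    · obtain ⟨k, rfl⟩ := hd
      have := H1_TT_le (v := v) (c := c) D.vb D.c0 (H1_pow_le (v := v) D.vb q0 k)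
      exact absurd (this.trans hcon) (not_le.2 hgt)
    · have h2 := D.TT_not v hd
      rw [hs1] at h2
      have h3 : v c = v (W i) := by
        have h4 : v (W i) ≠ 0 := (v.ne_zero_iff).2 (h.ne0 i)
        calc v c = v (W i) * ((v (W i))⁻¹ * v c) := by rw [mul_inv_cancel_left₀ h4]
          _ = v (W i) := by rw [h2, mul_one]
      exact absurd h3 (hW i).ne
  exact absurd (h.lam_le v D.vb hge) (not_le.2 hl)

theorem D_step (D : DCtx v b c q0) (h : WCyc b c n lam W) (hl : 1 < v lam) {l : ℕ}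
    (hT : 1 < v (TT b c (q0 * 2 ^ l))) (hW : ∀ i, 1 < v (W i * TT b c (q0 * 2 ^ l))) :
    1 < v (TT b c (q0 * 2 ^ (l + 1))) := by
  by_contra hcon
  rw [not_lt] at hcon
  have hc := D.ctx v hT
  have hTl0 : TT b c (q0 * 2 ^ l) ≠ 0 := by
    intro h0; rw [h0, map_zero] at hT; exact absurd hT (not_lt.2 zero_le)
  have hge : ∀ i, 1 ≤ v (W i) := by
    intro i
    by_contra hi
    rw [not_le] at hi
    obtain ⟨s, hs, hs1, -⟩ := H1_hole h hc hi
    have hgt : 1 < v (TT b c s) := by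
      rw [hs1, ← map_inv₀]; exact v_inv_gt_one (h.ne0 i) hi
    have hs0 : TT b c s ≠ 0 := by
      intro h0; rw [h0, map_zero] at hgt; exact absurd hgt (not_lt.2 zero_le)
    have hW0 : v (W i) ≠ 0 := (v.ne_zero_iff).2 (h.ne0 i)
    have hle : v (TT b c (q0 * 2 ^ l)) ≤ v (TT b c s) := by
      rcases D.cases v hs.1 hs0 with hd | ⟨l', u, hu, hsu, hl'0, hl'⟩
      · have h2 := D.TT_not v hd
        have h3 := D.TT_c_lt v l
        rw [← h2] at h3
        exact (lt_of_mul_lt_mul_right h3 zero_le).le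
      · rcases le_or_gt l' l with h1 | h1
        · rcases h1.eq_or_lt with h2 | h2
          · rw [hl', h2]
          · rw [hl']
            exact (D.TT_lt v h2 hl'0).le
        · exfalso
          rw [hl'] at hgt
          have h2 : v (TT b c (q0 * 2 ^ l')) ≤ v (TT b c (q0 * 2 ^ (l + 1))) := by
            refine H1_TT_le D.vb D.c0 ?_
            obtain ⟨k, rfl⟩ := Nat.exists_eq_add_of_le h1
            have e : q0 * 2 ^ (l.succ + k) = (q0 * 2 ^ (l + 1)) * 2 ^ k := by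
              rw [Nat.succ_eq_add_one, pow_add, mul_assoc]
            rw [e]
            exact H1_pow_le D.vb _ _
          exact absurd (h2.trans hcon) (not_le.2 hgt)
    have h4 := hW i
    rw [map_mul] at h4
    rw [hs1] at hle
    have h5 : v (W i) * v (TT b c (q0 * 2 ^ l)) ≤ 1 := by
      calc v (W i) * v (TT b c (q0 * 2 ^ l)) ≤ v (W i) * (v (W i))⁻¹ :=
            mul_le_mul_right hle _
        _ = 1 := mul_inv_cancel₀ hW0
    exact absurd h5 (not_le.2 h4)
  exact absurd (h.lam_le v D.vb hge) (not_le.2 hl)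

end H1

end Pool.Agent.helper56.P3
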